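import Mathlib

set_option autoImplicit false

namespace Pool.Agent.Results.MP_df70bc_co.DegreeDrop

open Finset

/-- `t(x) = x + ∑_{k=0}^{q-2} x^k`. -/
def t {F : Type} [Field F] [Fintype F] (x : F) : F :=
  x + ∑ k ∈ range (Fintype.card F - 1), x ^ k

/-- `f n` is the function `f_{n+1}` of the variables `x 0, …, x n`. -/
def f {F : Type} [Field F] [Fintype F] : (n : ℕ) → (Fin (n + 1) → F) → F
  | 0, x => x 0
  | n + 1, x => t (f n (Fin.init x) ^ (Fintype.card F - 2) +
      x (Fin.last (n + 1)) ^ (Fintype.card F - 2))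

instance : Fact (Nat.Prime 7) := ⟨by norm_num⟩

abbrev K := ZMod 7

def s (a b : K) : K := t (a ^ 5 + b ^ 5)

def G (n : ℕ) (e : Fin (n + 1) → ℕ) (g : K → K) : K :=
  ∑ x : Fin (n + 1) → K, g (f n x) * ∏ i, x i ^ e i

def T (k : ℕ) (g : K → K) (a : K) : K := ∑ b, g (s a b) * b ^ k

theorem cardK : Fintype.card K = 7 := ZMod.card 7

theorem G_zero (e : Fin 1 → ℕ) (g : K → K) : G 0 e g = ∑ a, g a * a ^ e 0 := by
  unfold G
  rw [← (Equiv.funUnique (Fin 1) K).symm.sum_comp]
  simp [f]

theorem G_succ (n : ℕ) (e : Fin (n + 2) → ℕ) (g : K → K) :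
    G (n + 1) e g = G n (Fin.init e) (T (e (Fin.last (n + 1))) g) := by
  unfold G T
  rw [← (Fin.snocEquiv fun _ : Fin (n + 2) => K).sum_comp, Fintype.sum_prod_type_right]
  refine sum_congr rfl fun x _ => ?_
  rw [sum_mul]
  refine sum_congr rfl fun b _ => ?_
  rw [Fin.prod_univ_castSucc]
  have : Fin.init ((Fin.snocEquiv fun _ : Fin (n + 2) => K) (b, x)) = x := Fin.init_snoc _ _
  simp [f, s, this, Fin.init, mul_comm, mul_left_comm, mul_assoc]

theorem s_left : ∀ b : K, Function.Bijective fun a => s a b := by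
  intro b
  rw [← Finite.injective_iff_bijective]
  revert b
  unfold s t
  rw [cardK]
  decide +kernel

theorem s_right : ∀ a : K, Function.Bijective fun b => s a b := by
  intro a
  rw [← Finite.injective_iff_bijective]
  revert a
  unfold s t
  rw [cardK]
  decide +kernel

theorem T_sum (k : ℕ) (g : K → K) (hg : ∑ a, g a = 0) : ∑ a, T k g a = 0 := by
  unfold T
  rw [sum_comm]
  refine sum_eq_zero fun b _ => ?_
  rw [← sum_mul, (s_left b).sum_comp g, hg, zero_mul]

theorem T_zero (g : K → K) (hg : ∑ a, g a = 0) : T 0 g = fun _ => 0 := by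
  funext a
  unfold T
  simp only [pow_zero, mul_one]
  rw [(s_right a).sum_comp g, hg]

theorem G_vanish : ∀ (n : ℕ) (e : Fin (n + 1) → ℕ) (g : K → K), ∑ a, g a = 0 → (∃ i, e i = 0) →
    G n e g = 0
  | 0, e, g, hg, ⟨i, hi⟩ => by
    rw [G_zero, show e 0 = 0 by rwa [Fin.fin_one_eq_zero i] at hi]
    simpa using hg
  | n + 1, e, g, hg, ⟨i, hi⟩ => by
    rw [G_succ]
    induction i using Fin.lastCases with
    | last => rw [hi, T_zero g hg]; simp [G]
    | cast j => exact G_vanish n _ _ (T_sum _ g hg) ⟨j, hi⟩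

theorem G_one : ∀ (n : ℕ) (g : K → K), G n (fun _ => 1) g = ∑ a, (T 1)^[n] g a * a
  | 0, g => by rw [G_zero]; simp
  | n + 1, g => by rw [G_succ]; exact G_one n (T 1 g)

def tab : Fin 10 → Fin 7 → K :=
  ![![0, 1, 2, 3, 4, 5, 6],
    ![5, 5, 2, 5, 3, 5, 3],
    ![0, 2, 4, 1, 2, 5, 0],
    ![5, 5, 5, 3, 5, 1, 4],
    ![0, 2, 1, 0, 4, 0, 0],
    ![5, 5, 6, 6, 1, 0, 5],
    ![0, 3, 4, 2, 2, 3, 0],
    ![4, 4, 0, 3, 6, 2, 2],
    ![0, 6, 0, 6, 0, 2, 0],
    ![1, 1, 5, 0, 6, 6, 2]]

theorem step : ∀ i : Fin 9, ∀ a : K, T 1 (tab i.castSucc) a = tab i.succ a := by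
  unfold T s t
  rw [cardK]
  decide +kernel

theorem iter' : ∀ (i : ℕ) (hi : i < 10), (T 1)^[i] id = tab ⟨i, hi⟩
  | 0, _ => funext (show ∀ a : K, a = tab 0 a by decide +kernel)
  | i + 1, hi => by
    rw [Function.iterate_succ_apply', iter' i (by omega)]
    exact funext (step ⟨i, by omega⟩)

theorem iter : ∑ a, (T 1)^[9] id a * a = 0 := by
  rw [iter' 9 (by norm_num)]
  decide +kernel

theorem pw : ∀ m : Fin 7, ∀ m' : Fin 7, ∑ a : K, a ^ m'.val * a ^ (6 - m.val) =
    if m' = m ∨ (m = 0 ∧ m' = 6) then -1 else 0 := by decide +kernel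

theorem result : ¬ ∀ (F : Type) [Field F] [Fintype F], Odd (Fintype.card F) → 3 < Fintype.card F →
    ∀ n : ℕ, 1 ≤ n → ∀ P : MvPolynomial (Fin (n + 1)) F,
      (∀ i, P.degreeOf i < Fintype.card F) → (∀ x, MvPolynomial.eval x P = f n x) →
      P.totalDegree = (n + 1) * (Fintype.card F - 2) := by
  intro h
  have hm : f (F := K) 9 ∈ (MvPolynomial.restrictDegree (Fin 10) K (Fintype.card K - 1)).map
      (MvPolynomial.evalₗ K (Fin 10)) := by
    rw [MvPolynomial.map_restrict_dom_evalₗ]; trivial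
  obtain ⟨P, hP, hf⟩ := Submodule.mem_map.1 hm
  rw [MvPolynomial.mem_restrictDegree, cardK] at hP
  have hev : ∀ x, MvPolynomial.eval x P = f 9 x := fun x => congrFun hf x
  have hd := h K (by rw [cardK]; decide) (by rw [cardK]; decide) 9 (by norm_num) P
    (fun i => by
      rw [cardK, MvPolynomial.degreeOf_lt_iff (by norm_num)]
      intro m hm
      have := hP m hm i
      omega) hev
  rw [cardK] at hd
  have hne : P.support.Nonempty := by
    rw [nonempty_iff_ne_empty]
    intro h0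
    rw [MvPolynomial.totalDegree, h0] at hd
    simp at hd
  obtain ⟨m, hm, hmd⟩ := exists_mem_eq_sup P.support hne fun s => s.sum fun _ e => e
  have hsum : ∀ s : Fin 10 →₀ ℕ, (s.sum fun _ e => e) = ∑ i, s i := fun s =>
    Finsupp.sum_fintype _ _ fun _ => rfl
  have hm50 : ∑ i, m i = 50 := by
    rw [← hsum, ← hmd]; exact hd
  have hG : G 9 (fun i => 6 - m i) id = 0 := by
    by_cases h6 : ∃ i, 6 - m i = 0
    · exact G_vanish 9 _ id (by decide +kernel) h6
    · have h5 : ∀ i, m i ≤ 5 := fun i => by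
        by_contra hc
        exact h6 ⟨i, by omega⟩
      have h55 : ∀ i, m i = 5 := by
        have := (sum_eq_sum_iff_of_le (s := univ) (f := fun i => m i) (g := fun _ => 5)
          fun i _ => h5 i).1 (by rw [hm50]; simp)
        exact fun i => this i (mem_univ i)
      rw [show (fun i => 6 - m i) = fun _ => 1 from funext fun i => by rw [h55], G_one, iter]
  have hG2 : G 9 (fun i => 6 - m i) id =
      ∑ d ∈ P.support, P.coeff d * ∏ i, ∑ a : K, a ^ d i * a ^ (6 - m i) := by
    unfold G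
    simp only [id, ← hev, MvPolynomial.eval_eq', sum_mul]
    rw [sum_comm]
    refine sum_congr rfl fun d _ => ?_
    rw [Fintype.prod_sum, mul_sum]
    refine sum_congr rfl fun x _ => ?_
    rw [prod_mul_distrib, mul_assoc]
  have hp : ∀ d ∈ P.support, ∀ i, ∑ a : K, a ^ d i * a ^ (6 - m i) =
      if d i = m i ∨ (m i = 0 ∧ d i = 6) then -1 else 0 := fun d hd i => by
    have h1 := hP m hm i
    have h2 := hP d hd i
    have := pw ⟨m i, by omega⟩ ⟨d i, by omega⟩
    simpa [Fin.ext_iff] using this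
  rw [hG, sum_eq_single m] at hG2
  · rw [prod_congr rfl fun i _ => hp m hm i] at hG2
    simp at hG2
    exact MvPolynomial.mem_support_iff.1 hm hG2
  · intro d hd hdm
    rw [prod_congr rfl fun i _ => hp d hd i]
    refine mul_eq_zero_of_right _ ?_
    by_contra hc
    have hall : ∀ i, m i ≤ d i := fun i => by
      have := prod_ne_zero_iff.1 hc i (mem_univ i)
      by_contra hlt
      rw [if_neg (by omega)] at this
      exact this rfl
    have hle : ∑ i, d i ≤ ∑ i, m i := by
      rw [← hsum, ← hsum, ← hmd]; exact MvPolynomial.le_totalDegree hd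
    have := (sum_eq_sum_iff_of_le (s := univ) (f := fun i => m i) (g := fun i => d i)
      fun i _ => hall i).1 (le_antisymm (sum_le_sum fun i _ => hall i) hle)
    exact hdm (Finsupp.ext fun i => (this i (mem_univ i)).symm)
  · intro hm'; exact absurd hm hm'

end Pool.Agent.Results.MP_df70bc_co.DegreeDrop
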